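import Mathlib
import Pool.Agent.H5.EPatDefs
import Pool.Agent.H5.EPat3

namespace Pool.Agent.Results.MP_c27bb7_lc.No

open Pool.Agent.H5.EPat

theorem result : ∃ α β : List (ℕ ⊕ Fin 3), α ≠ [] ∧ β ≠ [] ∧ lang α = lang β ∧
    ¬ SimilarEq α β := main

end Pool.Agent.Results.MP_c27bb7_lc.No
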